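import Pool.Agent.Lib.MP_f30851_co.Three

/-! The place of the maximum for the moduli from four on. -/

namespace Pool.Agent.Lib.MP_f30851_co

open Finset

theorem res_sum {d r : ℕ} (hr : r < d) (q : ℕ) (F : ℕ → ℝ) :
    ∑ j ∈ (range (d * q)).filter (fun j => j % d = r), F j = ∑ i ∈ range q, F (d * i + r) := by
  have d0 : 0 < d := by omega
  refine sum_nbij' (fun j => j / d) (fun i => d * i + r) (fun j hj => ?_) (fun i hi => ?_)
    (fun j hj => ?_) (fun i _ => ?_) fun j hj => ?_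
  · exact mem_range.2 (Nat.div_lt_of_lt_mul (mem_range.1 (mem_filter.1 hj).1))
  · have := Nat.mul_le_mul_left d (Nat.succ_le_of_lt (mem_range.1 hi))
    rw [Nat.mul_succ] at this
    exact mem_filter.2 ⟨mem_range.2 (by omega), by rw [Nat.mul_add_mod, Nat.mod_eq_of_lt hr]⟩
  · rw [← (mem_filter.1 hj).2, Nat.div_add_mod]
  · rw [Nat.mul_add_div d0, Nat.div_eq_of_lt hr, add_zero]
  · rw [← (mem_filter.1 hj).2, Nat.div_add_mod]

theorem resOne_eq {d : ℕ} (hd : 2 ≤ d) (q : ℕ) (t : ℝ) :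
    resOne (d * q) d t = ∑ i ∈ range q, bw (d * q) t (d * i + 1) := by
  rw [resOne, range_add_one, filter_insert, if_neg (by rw [Nat.mul_mod_right]; omega),
    res_sum (by omega)]

theorem bw_deriv {m j : ℕ} (h : j + 1 ≤ m) (t : ℝ) :
    HasDerivAt (fun t => bw (m + 1) t (j + 1)) ((m + 1) * (bw m t j - bw m t (j + 1))) t := by
  obtain ⟨l, rfl⟩ := Nat.exists_eq_add_of_le h
  have e1 : ((j + 1 + l + 1 : ℕ) : ℝ) * (j + 1 + l).choose j =
      (j + 1 + l + 1).choose (j + 1) * (j + 1 : ℕ) := by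
    exact_mod_cast Nat.add_one_mul_choose_eq (j + 1 + l) j
  have e2 : ((j + 1 + l).choose (j + 1) : ℝ) * (j + 1 + l + 1 : ℕ) =
      (j + 1 + l + 1).choose (j + 1) * (l + 1 : ℕ) := by
    have := Nat.choose_mul_succ_eq (j + 1 + l) (j + 1)
    rw [show j + 1 + l + 1 - (j + 1) = l + 1 by omega] at this
    exact_mod_cast this
  simp only [bw, show j + 1 + l + 1 - (j + 1) = l + 1 by omega, show j + 1 + l - j = l + 1 by omega,
    Nat.add_sub_cancel_left]
  refine (((hasDerivAt_pow (j + 1) t).const_mul _).mul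
    (((hasDerivAt_id' t).const_sub 1).pow (l + 1))).congr_deriv ?_
  simp only [Pi.pow_apply, Nat.add_sub_cancel]
  push_cast at e1 e2 ⊢
  linear_combination (-(t ^ j * (1 - t) ^ (l + 1))) * e1 + (t ^ (j + 1) * (1 - t) ^ l) * e2

theorem bw_pascal {m j : ℕ} (h : j + 1 ≤ m) (t : ℝ) :
    bw (m + 1) t (j + 1) = t * bw m t j + (1 - t) * bw m t (j + 1) := by
  obtain ⟨l, rfl⟩ := Nat.exists_eq_add_of_le h
  simp only [bw, show j + 1 + l + 1 - (j + 1) = l + 1 by omega, show j + 1 + l - j = l + 1 by omega,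
    Nat.add_sub_cancel_left, Nat.choose_succ_succ']
  push_cast
  ring

theorem bw_odds {m j : ℕ} (h : j ≤ m) {t : ℝ} (h1 : t < 1) :
    bw m t j = m.choose j * (t / (1 - t)) ^ j * (1 - t) ^ m := by
  obtain ⟨l, rfl⟩ := Nat.exists_eq_add_of_le h
  have := (sub_pos.2 h1).ne'
  rw [bw, Nat.add_sub_cancel_left, div_pow, pow_add]
  field_simp

theorem bw_pos {m j : ℕ} (h : j ≤ m) {t : ℝ} (h0 : 0 < t) (h1 : t < 1) : 0 < bw m t j := by
  have := Nat.choose_pos h
  have := sub_pos.2 h1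
  unfold bw
  positivity

theorem bw_conc (i l : ℕ) (t : ℝ) : bw (i + l + 2) t i * bw (i + l + 2) t (i + 2) *
    ((i + 2) * (l + 2)) = bw (i + l + 2) t (i + 1) ^ 2 * ((i + 1) * (l + 1)) := by
  have e1 := Nat.choose_succ_right_eq (i + l + 2) i
  have e2 := Nat.choose_succ_right_eq (i + l + 2) (i + 1)
  rw [show i + l + 2 - i = l + 2 by omega] at e1
  rw [show i + l + 2 - (i + 1) = l + 1 by omega] at e2
  have e1' := congrArg (Nat.cast : ℕ → ℝ) e1
  have e2' := congrArg (Nat.cast : ℕ → ℝ) e2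
  push_cast at e1' e2'
  simp only [bw, show i + l + 2 - i = l + 2 by omega, show i + l + 2 - (i + 1) = l + 1 by omega,
    show i + l + 2 - (i + 2) = l by omega]
  have : (((i + l + 2).choose i : ℝ) * (l + 2)) * ((i + l + 2).choose (i + 1 + 1) * (i + 1 + 1)) =
      ((i + l + 2).choose (i + 1) * (i + 1)) * ((i + l + 2).choose (i + 1) * (l + 1)) := by
    rw [← e1', e2']
  linear_combination (t ^ (i + 1) * (1 - t) ^ (l + 1)) ^ 2 * this

theorem bw_half {m i : ℕ} (hi : 3 ≤ i) (h : i + 3 ≤ m) {t : ℝ} (h0 : 0 < t) (h1 : t < 1) :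
    bw m t (i + 1) ^ 2 ≤ 2 * (bw m t i * bw m t (i + 2)) := by
  obtain ⟨l, rfl⟩ : ∃ l, m = i + (l + 1) + 2 := ⟨m - (i + 3), by omega⟩
  have k := bw_conc i (l + 1) t
  have p : 0 < bw (i + (l + 1) + 2) t i * bw (i + (l + 1) + 2) t (i + 2) :=
    mul_pos (bw_pos (by omega) h0 h1) (bw_pos (by omega) h0 h1)
  have i3 : (3 : ℝ) ≤ i := by exact_mod_cast hi
  have l0 : (0 : ℝ) ≤ l := Nat.cast_nonneg l
  push_cast at k
  refine le_of_mul_le_mul_right ?_ (show (0 : ℝ) < (i + 1) * (l + 1 + 1) by positivity)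
  rw [← k, mul_comm 2, mul_assoc _ 2]
  exact mul_le_mul_of_nonneg_left (by nlinarith) p.le

theorem bw_block {m i : ℕ} (hi : 3 ≤ i) (h : i + 4 ≤ m) {t : ℝ} (h0 : 0 < t) (h1 : t < 1) :
    bw m t (i + 1) + bw m t (i + 2) ≤ 2 * (bw m t i + bw m t (i + 3)) := by
  have a := bw_half hi (by omega : i + 3 ≤ m) h0 h1
  have b := bw_half (i := i + 1) (by omega) h h0 h1
  have u := bw_pos (by omega : i + 1 ≤ m) h0 h1
  have v := bw_pos (by omega : i + 2 ≤ m) h0 h1
  have a' : 2 * bw m t (i + 1) - bw m t (i + 2) ≤ 2 * bw m t i :=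
    le_of_mul_le_mul_right (by nlinarith [sq_nonneg (bw m t (i + 1) - bw m t (i + 2))]) v
  have b' : 2 * bw m t (i + 2) - bw m t (i + 1) ≤ 2 * bw m t (i + 3) :=
    le_of_mul_le_mul_right (by nlinarith [sq_nonneg (bw m t (i + 1) - bw m t (i + 2))]) u
  linarith

theorem four_small {d p m : ℕ} (hd : 4 ≤ d) (hp : 1 ≤ p) (hm : m + 1 = d * (p + 1)) {t : ℝ}
    (h0 : 0 < t) (h1 : t < 1) (hy : 3 / 2 < m * (t / (1 - t))) :
    ∑ i ∈ range (p + 1), bw m t (d * i) + ∑ i ∈ range (p + 1), bw m t (d * i + 1) < 25 / 34 := by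
  have m7 : 7 ≤ m := by nlinarith
  have tot : ∑ i ∈ range (p + 1), bw m t (d * i + 0) + ∑ i ∈ range (p + 1), bw m t (d * i + 1) +
      ∑ i ∈ range (p + 1), bw m t (d * i + 2) + ∑ i ∈ range (p + 1), bw m t (d * i + (d - 1)) ≤
      1 := by
    rw [← res_sum (by omega : 0 < d), ← res_sum (by omega : 1 < d), ← res_sum (by omega : 2 < d),
      ← res_sum (by omega : d - 1 < d), ← hm, ← sum_bw m t]
    simp only [sum_filter, ← sum_add_distrib]
    refine sum_le_sum fun j _ => ?_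
    have := bw_nonneg m h0.le h1.le j
    split_ifs <;> first | omega | linarith
  have blk : ∑ i ∈ range p, (bw m t (d * (i + 1)) + bw m t (d * (i + 1) + 1)) ≤
      ∑ i ∈ range p, 2 * (bw m t (d * i + (d - 1)) + bw m t (d * (i + 1) + 2)) := by
    refine sum_le_sum fun i hi => ?_
    have := Nat.mul_le_mul_left d (Nat.succ_le_of_lt (mem_range.1 hi))
    simp only [Nat.succ_eq_add_one, mul_add, mul_one] at this hm ⊢
    have k := bw_block (m := m) (i := d * i + (d - 1)) (by omega) (by omega) h0 h1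
    rwa [show d * i + (d - 1) + 1 = d * i + d by omega,
      show d * i + (d - 1) + 2 = d * i + d + 1 by omega,
      show d * i + (d - 1) + 3 = d * i + d + 2 by omega, mul_add] at k
  have fst : 9 / 25 * (bw m t 0 + bw m t 1) < bw m t 2 := by
    have s := pow_pos (sub_pos.2 h1) m
    have m7' : (7 : ℝ) ≤ m := by exact_mod_cast m7
    rw [bw_odds (by omega) h1, bw_odds (by omega) h1, bw_odds (by omega) h1, ← add_mul,
      ← mul_assoc, Nat.cast_choose_two]
    refine mul_lt_mul_of_pos_right ?_ s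
    have x0 : 0 < t / (1 - t) := div_pos h0 (sub_pos.2 h1)
    generalize t / (1 - t) = x at hy x0
    have : 6 / 7 * (m * x) ≤ (m - 1) * x := by nlinarith
    simp only [Nat.choose_zero_right, Nat.choose_one_right, Nat.cast_one, pow_zero, pow_one]
    nlinarith [mul_le_mul_of_nonneg_left this (show 0 ≤ m * x by positivity)]
  have n1 := bw_nonneg m h0.le h1.le (d * p + (d - 1))
  have n2 : 0 ≤ ∑ i ∈ range p, (bw m t (d * (i + 1)) + bw m t (d * (i + 1) + 1)) :=
    sum_nonneg fun i _ => add_nonneg (bw_nonneg m h0.le h1.le _) (bw_nonneg m h0.le h1.le _)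
  rw [sum_range_succ (fun i => bw m t (d * i + (d - 1))), sum_range_succ', sum_range_succ',
    sum_range_succ'] at tot
  rw [sum_range_succ', sum_range_succ']
  simp only [← mul_sum, sum_add_distrib, add_zero, mul_zero, zero_add] at blk n2 tot ⊢
  linarith

theorem odds_anti {d p m : ℕ} (hd : 4 ≤ d) (hm : 1 ≤ m) {x z : ℝ} (hx : 0 ≤ x) (hxz : x < z)
    (hz : m * z ≤ 3 / 2) :
    ∑ i ∈ range (p + 1), ((m.choose (d * i) : ℝ) * z ^ (d * i) -
      m.choose (d * i + 1) * z ^ (d * i + 1)) <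
    ∑ i ∈ range (p + 1), ((m.choose (d * i) : ℝ) * x ^ (d * i) -
      m.choose (d * i + 1) * x ^ (d * i + 1)) := by
  have z0 : 0 ≤ z := hx.trans hxz.le
  have m0 : (0 : ℝ) < m := by exact_mod_cast hm
  have fac : ∀ j : ℕ, (m * z) ^ (j + 3) / (j + 3).factorial ≤ 9 / 16 * (3 / 8) ^ j := by
    intro j
    induction j with
    | zero =>
      have := pow_le_pow_left₀ (by positivity) hz 3
      norm_num [Nat.factorial] at this ⊢
      linarith
    | succ j ih =>
      have j0 : (0 : ℝ) ≤ j := Nat.cast_nonneg j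
      have : m * z / (j + 3 + 1 : ℕ) ≤ 3 / 8 := by
        rw [div_le_iff₀ (by positivity)]
        push_cast
        linarith
      calc _ = (m * z) ^ (j + 3) / (j + 3).factorial * (m * z / (j + 3 + 1 : ℕ)) := by
            rw [show j + 1 + 3 = j + 3 + 1 by ring, Nat.factorial_succ (j + 3), pow_succ]
            push_cast
            field_simp
        _ ≤ 9 / 16 * (3 / 8) ^ j * (3 / 8) := by gcongr
        _ = _ := by ring
  have key : ∀ j : ℕ, (m.choose (j + 4) : ℝ) * (z ^ (j + 4) - x ^ (j + 4)) ≤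
      m * (z - x) * (9 / 16 * (3 / 8) ^ j) := fun j => by
    have a : z ^ (j + 4) - x ^ (j + 4) ≤ (z - x) * (j + 4 : ℕ) * z ^ (j + 3) := by
      have := abs_pow_sub_pow_le z x (j + 4)
      rwa [abs_of_nonneg z0, abs_of_nonneg hx, max_eq_left hxz.le,
        abs_of_nonneg (sub_nonneg.2 hxz.le),
        abs_of_nonneg (sub_nonneg.2 (pow_le_pow_left₀ hx hxz.le _))] at this
    have b : (m.choose (j + 4) : ℝ) ≤ m ^ (j + 4) / (j + 4).factorial := Nat.choose_le_pow_div _ _
    have c := sub_nonneg.2 hxz.le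
    calc _ ≤ m ^ (j + 4) / (j + 4).factorial * ((z - x) * (j + 4 : ℕ) * z ^ (j + 3)) := by
          gcongr
          exact sub_nonneg.2 (pow_le_pow_left₀ hx hxz.le _)
      _ = m * (z - x) * ((m * z) ^ (j + 3) / (j + 3).factorial) := by
          rw [Nat.factorial_succ (j + 3)]
          push_cast
          field_simp
          ring
      _ ≤ _ := by gcongr; exact fac j
  have geo : ∑ i ∈ range p, (3 / 8 : ℝ) ^ i ≤ 8 / 5 := by
    rw [geom_sum_eq (by norm_num), div_le_iff_of_neg (by norm_num)]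
    have : (0 : ℝ) ≤ (3 / 8) ^ p := by positivity
    linarith
  have s : ∑ i ∈ range p, ((m.choose (d * (i + 1)) : ℝ) * z ^ (d * (i + 1)) -
      m.choose (d * (i + 1) + 1) * z ^ (d * (i + 1) + 1)) ≤
      ∑ i ∈ range p, (((m.choose (d * (i + 1)) : ℝ) * x ^ (d * (i + 1)) -
      m.choose (d * (i + 1) + 1) * x ^ (d * (i + 1) + 1)) + m * (z - x) * (9 / 16) * (3 / 8) ^ i) := by
    refine sum_le_sum fun i _ => ?_
    obtain ⟨j, hj, e⟩ : ∃ j, i ≤ j ∧ d * (i + 1) = j + 4 :=
      ⟨d * (i + 1) - 4, by have : 4 * (i + 1) ≤ d * (i + 1) := Nat.mul_le_mul_right _ hd; omega,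
        by have : 4 * (i + 1) ≤ d * (i + 1) := Nat.mul_le_mul_right _ hd; omega⟩
    rw [e]
    have k1 := key j
    have k2 : (3 / 8 : ℝ) ^ j ≤ (3 / 8) ^ i := pow_le_pow_of_le_one (by norm_num) (by norm_num) hj
    have k3 : (m.choose (j + 4 + 1) : ℝ) * x ^ (j + 4 + 1) ≤ m.choose (j + 4 + 1) * z ^ (j + 4 + 1) := by
      gcongr
    have k4 := mul_le_mul_of_nonneg_left k2 (mul_pos m0 (sub_pos.2 hxz)).le
    nlinarith
  rw [sum_add_distrib, ← mul_sum] at s
  rw [sum_range_succ', sum_range_succ']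
  simp only [mul_zero, zero_add, Nat.choose_zero_right, Nat.choose_one_right, pow_zero, pow_one]
  nlinarith [mul_pos m0 (sub_pos.2 hxz)]

theorem four_max {d q : ℕ} (hd : 4 ≤ d) (hq : 1 ≤ q) {t : ℝ} (ht : t ∈ Set.Icc (0 : ℝ) 1)
    (hmax : ∀ s ∈ Set.Icc (0 : ℝ) 1, resOne (d * q) d s ≤ resOne (d * q) d t) :
    IsLeast {s | 0 < s ∧ deriv (resOne (d * q) d) s = 0} t := by
  obtain ⟨p, rfl⟩ := Nat.exists_eq_add_of_le' hq
  have n8 : 4 ≤ d * (p + 1) := by nlinarith
  obtain ⟨m, hm⟩ : ∃ m, m + 1 = d * (p + 1) := ⟨d * (p + 1) - 1, by omega⟩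
  have le : ∀ i ∈ range (p + 1), d * i + 1 ≤ m := fun i hi => by
    have := Nat.mul_le_mul_left d (Nat.succ_le_of_lt (mem_range.1 hi))
    rw [Nat.mul_succ] at this
    omega
  have low : 25 / 68 ≤ resOne (d * (p + 1)) d t := by
    have h1 : (1 : ℝ) ≤ (d * (p + 1) : ℕ) := by exact_mod_cast (by omega : 1 ≤ d * (p + 1))
    exact (resOne_inv_ge _ d (by omega) (by omega)).trans
      (hmax _ ⟨by positivity, by rwa [div_le_one (by positivity)]⟩)
  have der : ∀ s, HasDerivAt (resOne (d * (p + 1)) d)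
      ((m + 1) * ∑ i ∈ range (p + 1), (bw m s (d * i) - bw m s (d * i + 1))) s := fun s => by
    rw [funext (resOne_eq (by omega) (p + 1)), ← hm, mul_sum]
    exact HasDerivAt.fun_sum fun i hi => bw_deriv (le i hi) s
  have h0 : 0 < t := ht.1.lt_of_ne fun e => by
    rw [← e, resOne_eq (by omega), sum_eq_zero fun i _ => by simp [bw]] at low
    norm_num at low
  have h1 : t < 1 := ht.2.lt_of_ne fun e => by
    rw [e, resOne_eq (by omega), sum_eq_zero fun i hi => by
      have := le i hi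
      simp [bw, show d * (p + 1) - (d * i + 1) ≠ 0 by omega]] at low
    norm_num at low
  have hz := IsLocalMax.hasDerivAt_eq_zero
    (Filter.mem_of_superset (Icc_mem_nhds h0 h1) hmax) (der t)
  have hz' := (mul_eq_zero.1 hz).resolve_left (by positivity)
  refine ⟨⟨h0, (der t).deriv.trans hz⟩, fun s hs => not_lt.1 fun hst => ?_⟩
  have od : ∀ u < 1, ∑ i ∈ range (p + 1), (bw m u (d * i) - bw m u (d * i + 1)) = 0 →
      ∑ i ∈ range (p + 1), ((m.choose (d * i) : ℝ) * (u / (1 - u)) ^ (d * i) -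
        m.choose (d * i + 1) * (u / (1 - u)) ^ (d * i + 1)) = 0 := fun u hu h => by
    rw [sum_congr rfl fun i hi => by
      rw [bw_odds (Nat.le_of_succ_le (le i hi)) hu, bw_odds (le i hi) hu, ← sub_mul],
      ← sum_mul] at h
    exact (mul_eq_zero.1 h).resolve_right (pow_pos (sub_pos.2 hu) m).ne'
  have hy : m * (t / (1 - t)) ≤ 3 / 2 := not_lt.1 fun hy => by
    rcases Nat.eq_zero_or_pos p with rfl | hp
    · have k := od t h1 hz'
      simp at k
      linarith
    have k := four_small hd hp hm h0 h1 hy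
    rw [resOne_eq (by omega), ← hm, sum_congr rfl fun i hi => bw_pascal (le i hi) t,
      sum_add_distrib, ← mul_sum, ← mul_sum] at low
    rw [sum_sub_distrib, sub_eq_zero] at hz'
    rw [hz'] at low k
    linarith
  have s1 := hst.trans h1
  have k := odds_anti (p := p) hd (by omega : 1 ≤ m) (div_pos hs.1 (sub_pos.2 s1)).le
    (show s / (1 - s) < t / (1 - t) by
      rw [div_lt_div_iff₀ (sub_pos.2 s1) (sub_pos.2 h1)]
      linarith) hy
  rw [od t h1 hz', od s s1 ((mul_eq_zero.1 ((der s).deriv.symm.trans hs.2)).resolve_left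
    (by positivity))] at k
  exact k.false

end Pool.Agent.Lib.MP_f30851_co
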