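import Pool.Agent.Lib.MP_f30851_co.Upper

/-! The closed form of the maximum for the modulus three. -/

namespace Pool.Agent.Lib.MP_f30851_co

open Finset Real

theorem cos_two_third : cos (2 * π / 3) = -1 / 2 := by
  rw [show 2 * π / 3 = π - π / 3 by ring, cos_pi_sub, cos_pi_div_three]
  norm_num

theorem ind_three (j : ℕ) :
    (if j % 3 = 1 then (1 : ℝ) else 0) = 1 / 3 + 2 / 3 * cos (j * (2 * π / 3) - 2 * π / 3) := by
  have h : (j : ℝ) * (2 * π / 3) - 2 * π / 3 =
      ((j % 3 : ℕ) * (2 * π / 3) - 2 * π / 3) + (j / 3 : ℕ) * (2 * π) := by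
    conv_lhs => rw [← Nat.mod_add_div j 3]
    push_cast
    ring
  rw [h, cos_add_nat_mul_two_pi]
  have h3 : j % 3 = 0 ∨ j % 3 = 1 ∨ j % 3 = 2 := by omega
  rcases h3 with e | e | e <;> rw [e]
  · rw [Nat.cast_zero, zero_mul, zero_sub, cos_neg, cos_two_third]
    norm_num
  · norm_num
  · rw [show ((2 : ℕ) : ℝ) * (2 * π / 3) - 2 * π / 3 = 2 * π / 3 by push_cast; ring, cos_two_third]
    norm_num

theorem resOne_three (n : ℕ) {θ : ℝ} (hθ : 0 < cos θ) :
    resOne n 3 (1 / 2 + tan θ / (2 * √3)) =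
      1 / 3 + 2 / 3 * (cos (n * θ + (n - 2) * π / 3) / (2 * cos θ) ^ n) := by
  set t := 1 / 2 + tan θ / (2 * √3) with ht
  have s3 : √3 * √3 = (3 : ℝ) := mul_self_sqrt (by norm_num)
  have s0 : (0 : ℝ) < √3 := by positivity
  have hz : (t : ℂ) * Complex.exp ((2 * π / 3 : ℝ) * Complex.I) + ((1 - t : ℝ) : ℂ) =
      ((1 / (2 * cos θ) : ℝ) : ℂ) * Complex.exp ((π / 3 + θ : ℝ) * Complex.I) := by
    have hs : sin (2 * π / 3) = √3 / 2 := by
      rw [show 2 * π / 3 = π - π / 3 by ring, sin_pi_sub, sin_pi_div_three]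
    apply Complex.ext
    · simp only [Complex.add_re, Complex.re_ofReal_mul, Complex.exp_ofReal_mul_I_re,
        Complex.ofReal_re]
      rw [cos_two_third, cos_add, cos_pi_div_three, sin_pi_div_three, ht, tan_eq_sin_div_cos]
      field_simp
      linear_combination (sin θ) * s3
    · simp only [Complex.add_im, Complex.im_ofReal_mul, Complex.exp_ofReal_mul_I_im,
        Complex.ofReal_im]
      rw [hs, sin_add, cos_pi_div_three, sin_pi_div_three, ht, tan_eq_sin_div_cos]
      field_simp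
      ring
  have h1 := congrArg (fun z => (Complex.exp ((-(2 * π / 3) : ℝ) * Complex.I) * z ^ n).re) hz
  have h2 : ∀ j, (Complex.exp ((-(2 * π / 3) : ℝ) * Complex.I) *
      (((t : ℂ) * Complex.exp ((2 * π / 3 : ℝ) * Complex.I)) ^ j * ((1 - t : ℝ) : ℂ) ^ (n - j) *
        (n.choose j : ℕ))).re = bw n t j * cos (j * (2 * π / 3) - 2 * π / 3) := fun j => by
    rw [← Complex.exp_ofReal_mul_I_re, ← Complex.re_ofReal_mul, mul_pow, ← Complex.exp_nat_mul, bw]
    congr 1
    rw [show ((j * (2 * π / 3) - 2 * π / 3 : ℝ) : ℂ) * Complex.I =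
      (-(2 * π / 3) : ℝ) * Complex.I + j * ((2 * π / 3 : ℝ) * Complex.I) by push_cast; ring,
      Complex.exp_add]
    push_cast
    ring
  simp only [add_pow, mul_sum, Complex.re_sum, h2] at h1
  rw [mul_pow, ← Complex.exp_nat_mul, mul_left_comm, ← Complex.exp_add, ← Complex.ofReal_pow,
    Complex.re_ofReal_mul, show ((-(2 * π / 3) : ℝ) : ℂ) * Complex.I +
      n * ((π / 3 + θ : ℝ) * Complex.I) = (n * θ + (n - 2) * π / 3 : ℝ) * Complex.I by
        push_cast; ring, Complex.exp_ofReal_mul_I_re, one_div, inv_pow,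
    ← div_eq_inv_mul] at h1
  rw [← h1, resOne, sum_filter, mul_sum, show (1 / 3 : ℝ) = 1 / 3 * ∑ j ∈ range (n + 1), bw n t j by
    rw [sum_bw, mul_one], mul_sum, ← sum_add_distrib]
  refine sum_congr rfl fun j _ => ?_
  have := ind_three j
  split_ifs at this ⊢
  · linear_combination bw n t j * this
  · linear_combination bw n t j * this

theorem three_le {m q : ℕ} (hm : m + 1 = 3 * q) {θ : ℝ} (hθ : θ ∈ Set.Icc (-(π / 3)) (π / 3)) :
    cos ((m + 1) * θ + (m - 1) * π / 3) / cos θ ^ (m + 1) ≤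
      1 / cos ((m - 1) * π / (3 * m)) ^ m := by
  have pp := pi_pos
  have m2 : (2 : ℝ) ≤ m := by exact_mod_cast (by omega : 2 ≤ m)
  have hq : (m : ℝ) + 1 = 3 * q := by exact_mod_cast hm
  have cp : ∀ x ∈ Set.Icc (-(π / 3)) (π / 3), 0 < cos x := fun x hx =>
    cos_pos_of_mem_Ioo ⟨by linarith [hx.1], by linarith [hx.2]⟩
  have b0 : 0 ≤ ((m : ℝ) - 1) * π / (3 * m) := div_nonneg (by nlinarith) (by positivity)
  have b1 : ((m : ℝ) - 1) * π / (3 * m) ≤ π / 3 := by
    rw [div_le_div_iff₀ (by positivity) (by norm_num)]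
    nlinarith
  have c0 := cp _ ⟨by linarith, b1⟩
  obtain ⟨x, hx, hmax⟩ := isCompact_Icc.exists_isMaxOn ⟨θ, hθ⟩
    (f := fun x => cos ((m + 1) * x + (m - 1) * π / 3) / cos x ^ (m + 1))
    (ContinuousOn.div (by fun_prop) (by fun_prop) fun x hx => (pow_pos (cp x hx) _).ne')
  refine (hmax hθ).trans ?_
  have cx := cp x hx
  have neg : cos ((m + 1) * x + (m - 1) * π / 3) = -1 / 2 →
      cos ((m + 1) * x + (m - 1) * π / 3) / cos x ^ (m + 1) ≤
        1 / cos ((m - 1) * π / (3 * m)) ^ m := fun h =>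
    (div_nonpos_of_nonpos_of_nonneg (by rw [h]; norm_num) (by positivity)).trans (by positivity)
  rcases hx.1.eq_or_lt with h1 | h1
  · refine neg ?_
    rw [← h1, show ((m : ℝ) + 1) * -(π / 3) + (m - 1) * π / 3 = -(2 * π / 3) by ring, cos_neg,
      cos_two_third]
  rcases hx.2.eq_or_lt with h2 | h2
  · refine neg ?_
    rw [h2, show ((m : ℝ) + 1) * (π / 3) + (m - 1) * π / 3 = -(2 * π / 3) + q * (2 * π) by
      linear_combination (2 * π / 3) * hq, cos_add_nat_mul_two_pi, cos_neg, cos_two_third]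
  have hd := ((((hasDerivAt_id' x).const_mul ((m : ℝ) + 1)).add_const ((m - 1) * π / 3)).cos.div
    ((hasDerivAt_cos x).pow (m + 1)) (pow_pos cx _).ne')
  have h0 := (hmax.isLocalMax (Icc_mem_nhds h1 h2)).hasDerivAt_eq_zero hd
  have h3 : sin (m * x + (m - 1) * π / 3) = 0 := by
    simp only [Pi.pow_apply, Nat.add_sub_cancel, Nat.cast_add, Nat.cast_one] at h0
    rw [div_eq_zero_iff, or_iff_left (pow_pos (pow_pos cx _) _).ne'] at h0
    have h4 : ((m : ℝ) + 1) * cos x ^ m * sin ((m + 1) * x + (m - 1) * π / 3 - x) = 0 := by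
      rw [sin_sub]
      linear_combination -h0
    rw [show (m : ℝ) * x + (m - 1) * π / 3 = (m + 1) * x + (m - 1) * π / 3 - x by ring]
    exact (mul_eq_zero.1 h4).resolve_left (by positivity)
  obtain ⟨j, hj⟩ := sin_eq_zero_iff.1 h3
  have j0 : (0 : ℝ) ≤ j := by
    have : (-1 : ℝ) < j := lt_of_mul_lt_mul_right (by nlinarith : (-1 : ℝ) * π < j * π) pp.le
    exact_mod_cast (show (0 : ℤ) ≤ j by have : (-1 : ℤ) < j := by exact_mod_cast this
                                        omega)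
  have j1 : (j : ℝ) ≤ 2 * q - 2 := by
    have : (j : ℝ) < 2 * q - 1 :=
      lt_of_mul_lt_mul_right (by nlinarith : j * π < (2 * q - 1) * π) pp.le
    exact_mod_cast (show j ≤ 2 * q - 2 by have : j < 2 * q - 1 := by exact_mod_cast this
                                          omega)
  have hx0 : |x| ≤ (m - 1) * π / (3 * m) := by
    rw [le_div_iff₀ (by positivity), ← abs_of_pos (show (0 : ℝ) < 3 * m by positivity), ← abs_mul,
      abs_le]
    constructor <;> nlinarith
  have h5 : cos ((m - 1) * π / (3 * m)) ≤ cos x := by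
    rw [← cos_abs x]
    exact cos_le_cos_of_nonneg_of_le_pi (abs_nonneg _) (by linarith) hx0
  have h6 : cos ((m + 1) * x + (m - 1) * π / 3) ≤ cos x := by
    rw [show ((m : ℝ) + 1) * x + (m - 1) * π / 3 = (m * x + (m - 1) * π / 3) + x by ring, cos_add,
      h3, zero_mul, sub_zero]
    exact mul_le_of_le_one_left cx.le (cos_le_one _)
  calc cos ((m + 1) * x + (m - 1) * π / 3) / cos x ^ (m + 1) ≤ cos x / cos x ^ (m + 1) := by gcongr
    _ = 1 / cos x ^ m := by rw [pow_succ]; field_simp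
    _ ≤ _ := by gcongr

theorem three_max {n : ℕ} (hn : 2 ≤ n) (h3 : 3 ∣ n) : IsGreatest (resOne n 3 '' Set.Icc 0 1)
    (1 / 3 + 1 / (3 * (2 * cos ((n - 2) * π / (3 * (n - 1)))) ^ (n - 1))) := by
  obtain ⟨q, hq⟩ := h3
  obtain ⟨m, rfl⟩ := Nat.exists_eq_add_of_le' (show 1 ≤ n by omega)
  have pp := pi_pos
  have m2 : (2 : ℝ) ≤ m := by exact_mod_cast (by omega : 2 ≤ m)
  have s0 : (0 : ℝ) < √3 := by positivity
  have cp : ∀ x ∈ Set.Icc (-(π / 3)) (π / 3), 0 < cos x := fun x hx =>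
    cos_pos_of_mem_Ioo ⟨by linarith [hx.1], by linarith [hx.2]⟩
  have e1 : ((m + 1 : ℕ) : ℝ) - 2 = m - 1 := by push_cast; ring
  have e2 : ((m + 1 : ℕ) : ℝ) - 1 = m := by push_cast; ring
  rw [e1, e2, Nat.add_sub_cancel]
  set θ : ℝ := (m - 1) * π / (3 * m) with hθ
  have b0 : 0 ≤ θ := div_nonneg (by nlinarith) (by positivity)
  have b1 : θ ≤ π / 3 := by
    rw [hθ, div_le_div_iff₀ (by positivity) (by norm_num)]
    nlinarith
  have c0 := cp θ ⟨by linarith, b1⟩
  constructor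
  · have t0 : 0 ≤ tan θ := tan_nonneg_of_nonneg_of_le_pi_div_two b0 (by linarith)
    have t1 : tan θ ≤ √3 := by
      rw [← tan_pi_div_three]
      exact strictMonoOn_tan.monotoneOn ⟨by linarith, by linarith⟩ ⟨by linarith, by linarith⟩ b1
    have t2 : tan θ / (2 * √3) ≤ 1 / 2 := by
      rw [div_le_iff₀ (by positivity)]
      linarith
    have t3 : 0 ≤ tan θ / (2 * √3) := by positivity
    refine ⟨1 / 2 + tan (-θ) / (2 * √3), ?_, ?_⟩
    · rw [tan_neg, neg_div]
      constructor <;> linarith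
    · rw [resOne_three _ (by rwa [cos_neg]), e1, cos_neg,
        show ((m + 1 : ℕ) : ℝ) * -θ + (m - 1) * π / 3 = -θ by
          rw [hθ]; push_cast; field_simp; ring, cos_neg]
      field_simp
      ring
  · rintro _ ⟨t, ht, rfl⟩
    have a3 : arctan √3 = π / 3 := by
      rw [← tan_pi_div_three, arctan_tan (by linarith) (by linarith)]
    have hx : arctan ((2 * t - 1) * √3) ∈ Set.Icc (-(π / 3)) (π / 3) := by
      rw [← a3, ← arctan_neg]
      exact ⟨arctan_mono (by nlinarith [ht.1]), arctan_mono (by nlinarith [ht.2])⟩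
    have k := three_le hq hx
    have k1 := resOne_three (m + 1) (cp _ hx)
    rw [tan_arctan, show 1 / 2 + (2 * t - 1) * √3 / (2 * √3) = t by field_simp; ring, e1] at k1
    rw [k1, mul_pow, mul_pow, mul_comm (2 ^ (m + 1) : ℝ), ← div_div, Nat.cast_add, Nat.cast_one]
    calc _ ≤ 1 / 3 + 2 / 3 * (1 / cos θ ^ m / 2 ^ (m + 1)) := by gcongr
      _ = _ := by field_simp; ring

end Pool.Agent.Lib.MP_f30851_co
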