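import Mathlib

-- part Pool.Agent.Lib.MP_f30851_co.Conv
section

/-! Convolution powers of probability vectors on a finite abelian group: the maximiser of
`p ↦ p^{*n}(k)` has at most two atoms once the maximum exceeds one third. -/

namespace Pool.Agent.Lib.MP_f30851_co

open Finset AddMonoidAlgebra

set_option linter.unusedSectionVars false

variable {G : Type} [AddCommGroup G] [Fintype G] [DecidableEq G]

/-- The element of the group algebra with coefficients `p`. -/
noncomputable def ofFun (p : G → ℝ) : AddMonoidAlgebra ℝ G := ∑ x, single x (p x)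

/-- The convolution power. -/
noncomputable def val (p : G → ℝ) (m : ℕ) (x : G) : ℝ := (ofFun p ^ m).coeff x

omit [Fintype G] [DecidableEq G] in
theorem coeff_single_mul' (a : G) (r : ℝ) (f : AddMonoidAlgebra ℝ G) (x : G) :
    (single a r * f).coeff x = r * f.coeff (x - a) := by
  rw [coeff_single_mul_eq_mul_coeff (m₂ := x - a)]
  intro m' _
  constructor
  · intro h; rw [← h]; abel
  · intro h; rw [h]; abel

theorem val_zero (p : G → ℝ) (x : G) : val p 0 x = if x = 0 then 1 else 0 := by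
  simp [val, one_def, Finsupp.single_apply, eq_comm]

theorem val_succ (p : G → ℝ) (m : ℕ) (x : G) :
    val p (m + 1) x = ∑ y, p y * val p m (x - y) := by
  unfold val
  rw [pow_succ', ofFun, sum_mul, coeff_sum, Finsupp.finsetSum_apply]
  simp only [coeff_single_mul']

theorem val_nonneg {p : G → ℝ} (hp : ∀ x, 0 ≤ p x) (m : ℕ) (x : G) : 0 ≤ val p m x := by
  induction m generalizing x with
  | zero => rw [val_zero]; split_ifs <;> norm_num
  | succ m ih => rw [val_succ]; exact sum_nonneg fun y _ => mul_nonneg (hp y) (ih _)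

theorem sum_val {p : G → ℝ} (hp : ∑ x, p x = 1) (m : ℕ) : ∑ x, val p m x = 1 := by
  induction m with
  | zero => simp [val_zero]
  | succ m ih =>
    simp only [val_succ]
    rw [sum_comm]
    simp only [← mul_sum]
    have : ∀ y : G, ∑ x, val p m (x - y) = 1 := fun y => by
      rw [← ih]
      exact Fintype.sum_equiv (Equiv.subRight y) _ _ (fun _ => rfl)
    simp [this, hp]

theorem continuous_val (m : ℕ) (x : G) : Continuous fun p : G → ℝ => val p m x := by
  induction m generalizing x with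
  | zero => simp only [val_zero]; exact continuous_const
  | succ m ih =>
    simp only [val_succ]
    exact continuous_finsetSum _ fun y _ => (continuous_apply y).mul (ih _)

theorem hasDerivAt_pow_coeff (P V : AddMonoidAlgebra ℝ G) (m : ℕ) (k : G) :
    HasDerivAt (fun e : ℝ => ((e • V + P) ^ (m + 1)).coeff k)
      ((m + 1) * (V * P ^ m).coeff k) 0 := by
  have h1 : (fun e : ℝ => ((e • V + P) ^ (m + 1)).coeff k) = fun e : ℝ =>
      ∑ j ∈ range (m + 2), e ^ j * (V ^ j * P ^ (m + 1 - j) * ((m + 1).choose j : ℕ)).coeff k := by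
    funext e
    rw [add_pow, coeff_sum, Finsupp.finsetSum_apply]
    apply sum_congr rfl
    intro j _
    rw [smul_pow, smul_mul_assoc, smul_mul_assoc, coeff_smul_apply, smul_eq_mul]
  rw [h1]
  have h2 := HasDerivAt.fun_sum (u := range (m + 2)) (x := (0 : ℝ))
    (A := fun j (e : ℝ) => e ^ j * (V ^ j * P ^ (m + 1 - j) * ((m + 1).choose j : ℕ)).coeff k)
    (A' := fun j => ((j : ℝ) * 0 ^ (j - 1)) *
      (V ^ j * P ^ (m + 1 - j) * ((m + 1).choose j : ℕ)).coeff k)
    (fun j _ => (hasDerivAt_pow j (0 : ℝ)).mul_const _)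
  refine h2.congr_deriv (Eq.symm ?_)
  rw [sum_eq_single 1]
  · simp only [Nat.cast_one, pow_one, Nat.add_sub_cancel, Nat.choose_one_right, tsub_self,
      pow_zero, mul_one, one_mul]
    rw [← nsmul_eq_mul', coeff_smul_apply]
    simp
  · intro j _ hj
    rcases j with _ | _ | j
    · simp
    · exact absurd rfl hj
    · simp
  · intro h
    exact absurd (mem_range.mpr (by omega)) h

theorem ofFun_perturb (p : G → ℝ) (a : G) (e : ℝ) :
    ofFun (fun x => (1 + e) * p x - if x = a then e else 0) =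
      e • (ofFun p - single a 1) + ofFun p := by
  ext x
  simp [ofFun, Finsupp.single_apply, eq_comm]
  split_ifs <;> ring

theorem first_order {p : G → ℝ} (hp : p ∈ stdSimplex ℝ G) (m : ℕ) (k : G)
    (hmax : IsMaxOn (fun q => val q (m + 1) k) (stdSimplex ℝ G) p) {a : G} (ha : p a ≠ 0) :
    val p m (k - a) = val p (m + 1) k := by
  have ha0 : 0 < p a := lt_of_le_of_ne (hp.1 a) ha.symm
  have ha1 : p a ≤ 1 := by
    rw [← hp.2]; exact single_le_sum (fun x _ => hp.1 x) (mem_univ a)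
  have hd := hasDerivAt_pow_coeff (ofFun p) (ofFun p - single a 1) m k
  have hl : IsLocalMax (fun e : ℝ => ((e • (ofFun p - single a 1) + ofFun p) ^ (m + 1)).coeff k)
      0 := by
    have : Set.Ioo (-1 : ℝ) (p a) ∈ nhds (0 : ℝ) := Ioo_mem_nhds (by norm_num) ha0
    filter_upwards [this] with e he
    rw [← ofFun_perturb, zero_smul, zero_add]
    apply hmax (a := fun x => (1 + e) * p x - if x = a then e else 0)
    constructor
    · intro x
      have h1 : 0 ≤ 1 + e := by linarith [he.1]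
      show 0 ≤ (1 + e) * p x - if x = a then e else 0
      split_ifs with hx
      · subst hx
        rcases le_or_gt 0 e with h0 | h0
        · nlinarith [he.2]
        · nlinarith
      · simpa using mul_nonneg h1 (hp.1 x)
    · rw [sum_sub_distrib, ← mul_sum, hp.2]
      simp
  have h0 := hl.hasDerivAt_eq_zero hd
  have h1 : ((ofFun p - single a 1) * ofFun p ^ m).coeff k = 0 := by
    rcases mul_eq_zero.mp h0 with h | h
    · exact absurd h (by positivity)
    · exact h
  rw [sub_mul, ← pow_succ', coeff_sub, Finsupp.sub_apply, coeff_single_mul', one_mul] at h1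
  unfold val
  linarith

theorem card_support_mul_le {p : G → ℝ} (hp : p ∈ stdSimplex ℝ G) (m : ℕ) (k : G)
    (hmax : IsMaxOn (fun q => val q (m + 1) k) (stdSimplex ℝ G) p) :
    ((univ.filter fun a => p a ≠ 0).card : ℝ) * val p (m + 1) k ≤ 1 := by
  have h1 : ∑ a, val p m (k - a) = 1 := by
    rw [← sum_val hp.2 m]
    exact Fintype.sum_equiv (Equiv.subLeft k) _ _ (fun _ => rfl)
  rw [← h1, ← nsmul_eq_mul, ← sum_const]
  calc ∑ a ∈ univ.filter fun a => p a ≠ 0, val p (m + 1) k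
      = ∑ a ∈ univ.filter fun a => p a ≠ 0, val p m (k - a) :=
        sum_congr rfl fun a ha => (first_order hp m k hmax (mem_filter.mp ha).2).symm
    _ ≤ ∑ a, val p m (k - a) :=
        sum_le_sum_of_subset_of_nonneg (filter_subset _ _) fun a _ _ => val_nonneg hp.1 _ _

omit [Fintype G] in
theorem two_point_pow (a b : G) (s t : ℝ) (n : ℕ) (k : G) :
    ((single b t + single a s : AddMonoidAlgebra ℝ G) ^ n).coeff k =
      ∑ j ∈ (range (n + 1)).filter (fun j => j • b + (n - j) • a = k),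
        (n.choose j : ℝ) * t ^ j * s ^ (n - j) := by
  rw [add_pow, coeff_sum, Finsupp.finsetSum_apply, sum_filter]
  apply sum_congr rfl
  intro j _
  rw [single_pow, single_pow, single_mul_single, natCast_def, single_mul_single, coeff_single,
    Finsupp.single_apply, add_zero]
  split_ifs
  · ring
  · rfl

/-- A probability vector with at most two atoms. -/
theorem exists_two_point {p : G → ℝ} (hp : p ∈ stdSimplex ℝ G)
    (hc : (univ.filter fun a => p a ≠ 0).card ≤ 2) :
    ∃ (a b : G) (t : ℝ), 0 ≤ t ∧ t ≤ 1 ∧ ofFun p = single b t + single a (1 - t) ∧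
      ((univ.filter fun a => p a ≠ 0).card ≤ 1 → a = b) := by
  have hs : ofFun p = ∑ x ∈ univ.filter fun a => p a ≠ 0, single x (p x) := by
    rw [ofFun, sum_filter_of_ne]
    intro x _ hx h
    apply hx
    rw [h, single_zero]
  have h1 : ∑ x ∈ univ.filter fun a => p a ≠ 0, p x = 1 := by
    rw [sum_filter_of_ne (fun _ _ h => h), hp.2]
  set S := univ.filter fun a => p a ≠ 0
  have hc' : S.card = 0 ∨ S.card = 1 ∨ S.card = 2 := by omega
  rcases hc' with h | h | h
  · rw [card_eq_zero.mp h] at h1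
    simp at h1
  · obtain ⟨a, ha⟩ := card_eq_one.mp h
    rw [ha, sum_singleton] at h1 hs
    exact ⟨a, a, 0, le_rfl, zero_le_one, by rw [hs, h1]; simp, fun _ => rfl⟩
  · obtain ⟨a, b, hab, hS⟩ := card_eq_two.mp h
    rw [hS, sum_pair hab] at h1 hs
    refine ⟨a, b, p b, hp.1 b, by linarith [hp.1 a], ?_, fun h' => by omega⟩
    rw [hs, add_comm, show 1 - p b = p a by linarith]

end Pool.Agent.Lib.MP_f30851_co
end

-- part Pool.Agent.Lib.MP_f30851_co.Binom
section

/-! Elementary inequalities for binomial weights. -/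

namespace Pool.Agent.Lib.MP_f30851_co

open Finset

/-- The binomial weight. -/
noncomputable def bw (n : ℕ) (t : ℝ) (j : ℕ) : ℝ := (n.choose j : ℝ) * t ^ j * (1 - t) ^ (n - j)

/-- The probability that a binomial variable is congruent to one modulo `d`. -/
noncomputable def resOne (n d : ℕ) (t : ℝ) : ℝ :=
  ∑ j ∈ (range (n + 1)).filter (fun j => j % d = 1), bw n t j

theorem bw_nonneg (n : ℕ) {t : ℝ} (h0 : 0 ≤ t) (h1 : t ≤ 1) (j : ℕ) : 0 ≤ bw n t j := by
  unfold bw
  have : 0 ≤ 1 - t := by linarith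
  positivity

theorem sum_bw (n : ℕ) (t : ℝ) : ∑ j ∈ range (n + 1), bw n t j = 1 := by
  have := add_pow t (1 - t) n
  rw [add_sub_cancel, one_pow] at this
  rw [this]
  exact sum_congr rfl fun j _ => by unfold bw; ring

theorem bw_symm (n : ℕ) (t : ℝ) {j : ℕ} (hj : j ≤ n) : bw n (1 - t) (n - j) = bw n t j := by
  unfold bw
  rw [Nat.choose_symm hj, Nat.sub_sub_self hj, sub_sub_cancel]
  ring

theorem continuous_resOne (n d : ℕ) : Continuous (resOne n d) := by
  unfold resOne bw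
  fun_prop

theorem aux_sum {x y z c : ℝ} (hx : 0 ≤ x) (hy : 0 ≤ y) (h : (c * z) ^ 2 ≤ 4 * (x * y)) :
    c * z ≤ x + y := by
  apply le_of_sq_le_sq_of_nonneg_aux
  · nlinarith [sq_nonneg (x - y)]
  · positivity
where
  le_of_sq_le_sq_of_nonneg_aux {a b : ℝ} (h : a ^ 2 ≤ b ^ 2) (hb : 0 ≤ b) : a ≤ b :=
    (abs_le_of_sq_le_sq' h hb).2

theorem five_group (i l : ℕ) (hil : 1 ≤ i + l) {t : ℝ} (h0 : 0 ≤ t) (h1 : t ≤ 1) :
    71 / 25 * bw (i + l + 4) t (i + 2) ≤ ∑ s ∈ range 5, bw (i + l + 4) t (i + s) := by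
  set n := i + l + 4 with hn
  have e (a b : ℕ) (hab : a + b = 4) (ha : a < 4) :
      (n.choose (i + a + 1) : ℝ) * (i + a + 1) = n.choose (i + a) * (l + b) := by
    have := Nat.choose_succ_right_eq n (i + a)
    rw [show n - (i + a) = l + b by omega] at this
    exact_mod_cast this
  have e0 := e 0 4 rfl (by norm_num)
  have e1 := e 1 3 rfl (by norm_num)
  have e2 := e 2 2 rfl (by norm_num)
  have e3 := e 3 1 rfl (by norm_num)
  simp only [add_zero, add_assoc] at e0 e1 e2 e3
  norm_num at e0 e1 e2 e3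
  set c0 : ℝ := (n.choose i : ℝ)
  set c1 : ℝ := (n.choose (i + 1) : ℝ)
  set c2 : ℝ := (n.choose (i + 2) : ℝ)
  set c3 : ℝ := (n.choose (i + 3) : ℝ)
  set c4 : ℝ := (n.choose (i + 4) : ℝ)
  have hi : (0 : ℝ) ≤ i := Nat.cast_nonneg i
  have hl : (0 : ℝ) ≤ l := Nat.cast_nonneg l
  have hil' : (1 : ℝ) ≤ i + l := by exact_mod_cast hil
  have p0 : 0 ≤ c0 := Nat.cast_nonneg _
  have p1 : 0 ≤ c1 := Nat.cast_nonneg _
  have p2 : 0 ≤ c2 := Nat.cast_nonneg _
  have p3 : 0 ≤ c3 := Nat.cast_nonneg _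
  have p4 : 0 ≤ c4 := Nat.cast_nonneg _
  have k1 : c2 ^ 2 ≤ 2 * (c1 * c3) := by
    have h2 : (c1 * c3) * ((i + 3) * (l + 3)) = c2 ^ 2 * ((i + 2) * (l + 2)) := by
      calc (c1 * c3) * ((i + 3) * (l + 3)) = (c1 * (l + 3)) * (c3 * (i + 3)) := by ring
        _ = (c2 * (i + 2)) * (c2 * (l + 2)) := by rw [← e1, e2]
        _ = _ := by ring
    have h3 : ((i : ℝ) + 3) * (l + 3) ≤ 2 * ((i + 2) * (l + 2)) := by nlinarith
    have h4 : (0 : ℝ) < (i + 3) * (l + 3) := by positivity
    apply le_of_mul_le_mul_right _ h4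
    calc c2 ^ 2 * ((i + 3) * (l + 3)) ≤ c2 ^ 2 * (2 * ((i + 2) * (l + 2))) := by gcongr
      _ = 2 * (c1 * c3) * ((i + 3) * (l + 3)) := by rw [mul_assoc 2, h2]; ring
  have k2 : c2 ^ 2 ≤ 20 * (c0 * c4) := by
    have h2 : (c0 * c4) * (((i + 3) * (i + 4)) * ((l + 3) * (l + 4))) =
        c2 ^ 2 * (((i + 1) * (i + 2)) * ((l + 1) * (l + 2))) := by
      calc (c0 * c4) * (((i + 3) * (i + 4)) * ((l + 3) * (l + 4)))
          = (c0 * (l + 4)) * (c4 * (i + 4)) * ((i + 3) * (l + 3)) := by ring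
        _ = (c1 * (i + 1)) * (c3 * (l + 1)) * ((i + 3) * (l + 3)) := by rw [← e0, e3]
        _ = (c1 * (l + 3)) * (c3 * (i + 3)) * ((i + 1) * (l + 1)) := by ring
        _ = (c2 * (i + 2)) * (c2 * (l + 2)) * ((i + 1) * (l + 1)) := by rw [← e1, e2]
        _ = _ := by ring
    have g1 : ∀ x : ℝ, 0 ≤ x → (x + 3) * (x + 4) ≤ 6 * ((x + 1) * (x + 2)) := by
      intro x hx; nlinarith
    have g2 : ∀ x : ℝ, 1 ≤ x → (x + 3) * (x + 4) ≤ 10 / 3 * ((x + 1) * (x + 2)) := by
      intro x hx; nlinarith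
    have h3 : (((i : ℝ) + 3) * (i + 4)) * ((l + 3) * (l + 4)) ≤
        20 * (((i + 1) * (i + 2)) * ((l + 1) * (l + 2))) := by
      rcases Nat.eq_zero_or_pos i with h | h
      · have hl1 : (1 : ℝ) ≤ l := by exact_mod_cast (by omega : 1 ≤ l)
        calc _ ≤ (6 * (((i : ℝ) + 1) * (i + 2))) * (10 / 3 * ((l + 1) * (l + 2))) :=
              mul_le_mul (g1 _ hi) (g2 _ hl1) (by positivity) (by positivity)
          _ = _ := by ring
      · have hi1 : (1 : ℝ) ≤ i := by exact_mod_cast h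
        calc _ ≤ (10 / 3 * (((i : ℝ) + 1) * (i + 2))) * (6 * ((l + 1) * (l + 2))) :=
              mul_le_mul (g2 _ hi1) (g1 _ hl) (by positivity) (by positivity)
          _ = _ := by ring
    have h4 : (0 : ℝ) < ((i + 3) * (i + 4)) * ((l + 3) * (l + 4)) := by positivity
    apply le_of_mul_le_mul_right _ h4
    calc c2 ^ 2 * (((i + 3) * (i + 4)) * ((l + 3) * (l + 4)))
        ≤ c2 ^ 2 * (20 * (((i + 1) * (i + 2)) * ((l + 1) * (l + 2)))) := by gcongr
      _ = 20 * (c0 * c4) * (((i + 3) * (i + 4)) * ((l + 3) * (l + 4))) := by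
          rw [mul_assoc 20, h2]; ring
  have hs : 0 ≤ 1 - t := by linarith
  have b0 : bw n t i = c0 * t ^ i * (1 - t) ^ (l + 4) := by
    unfold bw; rw [show n - i = l + 4 by omega]
  have b1 : bw n t (i + 1) = c1 * t ^ (i + 1) * (1 - t) ^ (l + 3) := by
    unfold bw; rw [show n - (i + 1) = l + 3 by omega]
  have b2 : bw n t (i + 2) = c2 * t ^ (i + 2) * (1 - t) ^ (l + 2) := by
    unfold bw; rw [show n - (i + 2) = l + 2 by omega]
  have b3 : bw n t (i + 3) = c3 * t ^ (i + 3) * (1 - t) ^ (l + 1) := by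
    unfold bw; rw [show n - (i + 3) = l + 1 by omega]
  have b4 : bw n t (i + 4) = c4 * t ^ (i + 4) * (1 - t) ^ l := by
    unfold bw; rw [show n - (i + 4) = l by omega]
  set w : ℝ := (t ^ (i + 2) * (1 - t) ^ (l + 2)) ^ 2 with hw
  have hw0 : 0 ≤ w := by positivity
  have q1 : 7 / 5 * bw n t (i + 2) ≤ bw n t (i + 1) + bw n t (i + 3) := by
    apply aux_sum (bw_nonneg _ h0 h1 _) (bw_nonneg _ h0 h1 _)
    have a1 : bw n t (i + 1) * bw n t (i + 3) = (c1 * c3) * w := by rw [b1, b3, hw]; ring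
    have a2 : (7 / 5 * bw n t (i + 2)) ^ 2 = 49 / 25 * c2 ^ 2 * w := by rw [b2, hw]; ring
    rw [a1, a2]
    nlinarith [mul_le_mul_of_nonneg_right k1 hw0, mul_nonneg (sq_nonneg c2) hw0]
  have q2 : 11 / 25 * bw n t (i + 2) ≤ bw n t i + bw n t (i + 4) := by
    apply aux_sum (bw_nonneg _ h0 h1 _) (bw_nonneg _ h0 h1 _)
    have a1 : bw n t i * bw n t (i + 4) = (c0 * c4) * w := by rw [b0, b4, hw]; ring
    have a2 : (11 / 25 * bw n t (i + 2)) ^ 2 = 121 / 625 * c2 ^ 2 * w := by rw [b2, hw]; ring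
    rw [a1, a2]
    nlinarith [mul_le_mul_of_nonneg_right k2 hw0, mul_nonneg (sq_nonneg c2) hw0]
  simp only [sum_range_succ, sum_range_zero, add_zero, zero_add]
  linarith

/-- A set of indices in `[2, n-2]` with mutual gaps at least five has small binomial weight. -/
theorem sparse_sum_le (n : ℕ) (hn : 5 ≤ n) (J : Finset ℕ) (hJ : ∀ j ∈ J, 2 ≤ j ∧ j + 2 ≤ n)
    (hgap : ∀ j ∈ J, ∀ j' ∈ J, j < j' → j + 5 ≤ j') {t : ℝ} (h0 : 0 ≤ t) (h1 : t ≤ 1) :
    ∑ j ∈ J, bw n t j ≤ 25 / 71 := by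
  have h2 : 71 / 25 * ∑ j ∈ J, bw n t j ≤ ∑ j ∈ J, ∑ s ∈ range 5, bw n t (j - 2 + s) := by
    rw [mul_sum]
    apply sum_le_sum
    intro j hj
    obtain ⟨h3, h4⟩ := hJ j hj
    have := five_group (j - 2) (n - j - 2) (by omega) h0 h1
    rwa [show j - 2 + (n - j - 2) + 4 = n by omega, show j - 2 + 2 = j by omega] at this
  have h3 : ∑ j ∈ J, ∑ s ∈ range 5, bw n t (j - 2 + s) ≤ 1 := by
    rw [← sum_product', ← sum_bw n t,
      ← sum_image (s := J ×ˢ range 5) (g := fun x => x.1 - 2 + x.2) (f := bw n t)]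
    · apply sum_le_sum_of_subset_of_nonneg _ fun j _ _ => bw_nonneg _ h0 h1 _
      intro x hx
      obtain ⟨⟨j, s⟩, hy, rfl⟩ := mem_image.mp hx
      obtain ⟨hj, hs⟩ := mem_product.mp hy
      have := hJ j hj
      have := mem_range.mp hs
      simp only [mem_range] at *
      omega
    · rintro ⟨j, s⟩ hx ⟨j', s'⟩ hy hxy
      obtain ⟨hj, hs⟩ := mem_product.mp (mem_coe.mp hx)
      obtain ⟨hj', hs'⟩ := mem_product.mp (mem_coe.mp hy)
      have a1 := hJ j hj
      have a2 := hJ j' hj'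
      have a3 := hgap j hj j' hj'
      have a4 := hgap j' hj' j hj
      simp only [mem_range] at *
      have : j = j' := by omega
      subst this
      have : s = s' := by omega
      subst this
      rfl
  linarith

theorem lower_const (n : ℕ) (hn : 2 ≤ n) : 25 / 68 ≤ (1 - 1 / (n : ℝ)) ^ (n - 1) := by
  obtain ⟨m, rfl⟩ := Nat.exists_eq_add_of_le' (show 1 ≤ n by omega)
  have hm : (0 : ℝ) < m := by exact_mod_cast (by omega : 0 < m)
  rw [Nat.add_sub_cancel]
  have h1 : (1 + 1 / (m : ℝ)) ^ m ≤ Real.exp 1 := by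
    calc (1 + 1 / (m : ℝ)) ^ m ≤ (Real.exp (1 / m)) ^ m := by
          gcongr
          rw [add_comm]; exact Real.add_one_le_exp _
      _ = Real.exp 1 := by rw [← Real.exp_nat_mul]; congr 1; field_simp
  have h2 : (1 - 1 / ((m + 1 : ℕ) : ℝ)) = (1 + 1 / (m : ℝ))⁻¹ := by
    push_cast; field_simp; ring
  rw [h2, inv_pow]
  have h3 := Real.exp_one_lt_d9
  rw [le_inv_comm₀ (by norm_num) (by positivity)]
  linarith

theorem bw_one (n : ℕ) (t : ℝ) : bw n t 1 = n * t * (1 - t) ^ (n - 1) := by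
  unfold bw; simp

theorem bw_one_inv (n : ℕ) (hn : 2 ≤ n) : bw n (1 / n) 1 = (1 - 1 / (n : ℝ)) ^ (n - 1) := by
  have : (n : ℝ) ≠ 0 := by exact_mod_cast (by omega : n ≠ 0)
  rw [bw_one, mul_one_div_cancel this, one_mul]

theorem resOne_inv_ge (n d : ℕ) (hn : 2 ≤ n) (hd : 2 ≤ d) : 25 / 68 ≤ resOne n d (1 / n) := by
  have h1 : (1 : ℝ) ≤ n := by exact_mod_cast (by omega : 1 ≤ n)
  refine (lower_const n hn).trans ?_
  rw [← bw_one_inv n hn, resOne]
  apply single_le_sum (f := bw n (1 / n))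
  · exact fun j _ => bw_nonneg _ (by positivity) (by rw [div_le_one (by positivity)]; exact h1) _
  · rw [mem_filter, mem_range]
    exact ⟨by omega, Nat.mod_eq_of_lt (by omega)⟩

theorem resOne_self (n : ℕ) (hn : 2 ≤ n) (t : ℝ) : resOne n n t = bw n t 1 := by
  rw [resOne, sum_eq_single 1]
  · intro j hj h1
    obtain ⟨h2, h3⟩ := mem_filter.mp hj
    rcases Nat.lt_succ_iff_lt_or_eq.mp (mem_range.mp h2) with h | h
    · rw [Nat.mod_eq_of_lt h] at h3; exact absurd h3 h1
    · rw [h, Nat.mod_self] at h3; exact absurd h3 (by norm_num)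
  · intro h
    exfalso
    apply h
    rw [mem_filter, mem_range]
    exact ⟨by omega, Nat.mod_eq_of_lt (by omega)⟩

theorem bw_one_le (n : ℕ) (hn : 2 ≤ n) {t : ℝ} (h1 : t ≤ 1) :
    bw n t 1 ≤ (1 - 1 / (n : ℝ)) ^ (n - 1) := by
  obtain ⟨m, rfl⟩ := Nat.exists_eq_add_of_le' (show 1 ≤ n by omega)
  have hm : (0 : ℝ) < m := by exact_mod_cast (by omega : 0 < m)
  rw [bw_one, Nat.add_sub_cancel]
  push_cast
  set u : ℝ := (1 - t) * (m + 1) / m with hu
  have hu0 : 0 ≤ u := by
    have : 0 ≤ 1 - t := by linarith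
    positivity
  have e1 : 1 - t = u * (1 - 1 / ((m : ℝ) + 1)) := by rw [hu]; field_simp; ring
  have e2 : ((m : ℝ) + 1) * t = 1 + m * (1 - u) := by rw [hu]; field_simp; ring
  have hq : 0 ≤ 1 - 1 / ((m : ℝ) + 1) := by
    rw [sub_nonneg, div_le_one (by positivity)]; linarith
  rw [e2, e1, mul_pow, ← mul_assoc]
  apply mul_le_of_le_one_left (by positivity)
  -- `(1 + m (1 - u)) u ^ m ≤ 1`
  have key : ∀ r : ℕ, (1 + r * (1 - u)) * u ^ r ≤ 1 := by
    intro r
    induction r with
    | zero => simp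
    | succ r ih =>
      refine le_trans ?_ ih
      push_cast
      have : (1 + (r : ℝ) * (1 - u)) * u ^ r - (1 + (r + 1) * (1 - u)) * u ^ (r + 1) =
          (r + 1) * (1 - u) ^ 2 * u ^ r := by ring
      have h3 : 0 ≤ ((r : ℝ) + 1) * (1 - u) ^ 2 * u ^ r := by positivity
      linarith
  exact key m

theorem resOne_two (n : ℕ) (hn : 1 ≤ n) : resOne n 2 (1 / 2) = 1 / 2 := by
  have h1 := sum_bw n (1 / 2)
  have h2 : ∑ j ∈ range (n + 1), (-1 : ℝ) ^ j * bw n (1 / 2) j = 0 := by
    have := add_pow (-(1 / 2) : ℝ) (1 / 2) n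
    rw [neg_add_cancel, zero_pow (by omega)] at this
    rw [this]
    apply sum_congr rfl
    intro j _
    unfold bw
    rw [neg_pow (1 / 2 : ℝ)]
    norm_num
    ring
  have h3 : ∑ j ∈ range (n + 1), bw n (1 / 2) j -
      ∑ j ∈ range (n + 1), (-1 : ℝ) ^ j * bw n (1 / 2) j = 2 * resOne n 2 (1 / 2) := by
    rw [resOne, sum_filter, mul_sum, ← sum_sub_distrib]
    apply sum_congr rfl
    intro j _
    rcases Nat.even_or_odd j with h | h
    · rw [h.neg_one_pow, if_neg (by rw [Nat.even_iff] at h; omega)]; ring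
    · rw [h.neg_one_pow, if_pos (Nat.odd_iff.mp h)]; ring
  linarith

end Pool.Agent.Lib.MP_f30851_co
end

-- part Pool.Agent.Lib.MP_f30851_co.Upper
section

/-! The maximum of `p^{*n}(k)` on a finite abelian group killed by `n`. -/

namespace Pool.Agent.Lib.MP_f30851_co

open Finset AddMonoidAlgebra

set_option linter.unusedSectionVars false

variable {G : Type} [AddCommGroup G] [Fintype G] [DecidableEq G]

theorem two_point_val {n : ℕ} (hG : ∀ x : G, n • x = 0) (a b : G) (t : ℝ) (k : G) :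
    ((single b t + single a (1 - t) : AddMonoidAlgebra ℝ G) ^ n).coeff k =
      ∑ j ∈ (range (n + 1)).filter (fun j => j • (b - a) = k), bw n t j := by
  rw [two_point_pow]
  apply sum_congr _ fun _ _ => rfl
  apply filter_congr
  intro j hj
  have hj' : j ≤ n := Nat.lt_succ_iff.mp (mem_range.mp hj)
  have : (n - j) • a = -(j • a) := by
    rw [eq_neg_iff_add_eq_zero, ← add_nsmul, Nat.sub_add_cancel hj', hG]
  rw [this, smul_sub, sub_eq_add_neg]

theorem nsmul_eq_self_iff {k : G} (hk : k ≠ 0) (j : ℕ) :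
    j • k = k ↔ j % addOrderOf k = 1 := by
  have h1 : 1 < addOrderOf k := by
    have h2 : addOrderOf k ≠ 1 := by simpa using hk
    have h3 : 0 < addOrderOf k := addOrderOf_pos k
    omega
  have := nsmul_eq_nsmul_iff_modEq (x := k) (n := j) (m := 1)
  rw [one_nsmul] at this
  rw [this, Nat.ModEq, Nat.mod_eq_of_lt h1]

theorem sum_self {n : ℕ} {k : G} (hk : k ≠ 0) (t : ℝ) :
    ∑ j ∈ (range (n + 1)).filter (fun j => j • k = k), bw n t j = resOne n (addOrderOf k) t := by
  rw [resOne]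
  apply sum_congr _ fun _ _ => rfl
  exact filter_congr fun j _ => nsmul_eq_self_iff hk j

theorem sum_neg {n : ℕ} (hG : ∀ x : G, n • x = 0) {k : G} (hk : k ≠ 0) (t : ℝ) :
    ∑ j ∈ (range (n + 1)).filter (fun j => j • (-k) = k), bw n t j =
      resOne n (addOrderOf k) (1 - t) := by
  have h1 := two_point_val hG k 0 t k
  have h2 := two_point_val hG 0 k (1 - t) k
  rw [zero_sub] at h1
  rw [sub_zero, sum_self hk, sub_sub_cancel, add_comm] at h2
  rw [← h1, ← h2]

theorem sum_other {n : ℕ} (hn : 1 ≤ n) (hG : ∀ x : G, n • x = 0) {k y : G} (hk : k ≠ 0)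
    (hk2 : 2 • k ≠ 0) (h1 : y ≠ k) (h2 : y ≠ -k) {t : ℝ} (h0 : 0 ≤ t) (ht : t ≤ 1) :
    ∑ j ∈ (range (n + 1)).filter (fun j => j • y = k), bw n t j ≤ 25 / 71 := by
  set J := (range (n + 1)).filter (fun j => j • y = k) with hJ
  rcases J.eq_empty_or_nonempty with h | ⟨j₀, hj₀⟩
  · rw [h, sum_empty]; norm_num
  have hj₀' : j₀ • y = k := (mem_filter.mp hj₀).2
  have h3 : -y ≠ k := fun h => h2 (by rw [← h, neg_neg])
  have hord : ∀ i, 1 ≤ i → i ≤ 4 → i • y ≠ 0 := by
    intro i hi1 hi4 hi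
    have hr : (j₀ % i) • y = k := by
      rw [← hj₀']
      conv_rhs => rw [← Nat.mod_add_div j₀ i, add_nsmul, mul_nsmul, hi, nsmul_zero, add_zero]
    have hlt : j₀ % i < i := Nat.mod_lt _ hi1
    generalize j₀ % i = r at hr hlt
    have c0 : r ≠ 0 := by rintro rfl; exact hk (by rw [← hr, zero_nsmul])
    have c1 : r ≠ 1 := by rintro rfl; exact h1 (by rw [← hr, one_nsmul])
    have c2 : r + 1 ≠ i := by
      rintro rfl
      apply h3
      rw [← hr, neg_eq_iff_add_eq_zero, add_comm, ← succ_nsmul, hi]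
    have c3 : r = 2 ∧ i = 4 := by omega
    obtain ⟨rfl, rfl⟩ := c3
    exact hk2 (by rw [← hr, ← mul_nsmul', hi])
  have hn5 : 5 ≤ n := by
    by_contra h
    exact hord n hn (by omega) (hG y)
  apply sparse_sum_le n hn5 J _ _ h0 ht
  · intro j hj
    obtain ⟨hj1, hj2⟩ := mem_filter.mp hj
    have hj3 := mem_range.mp hj1
    have c0 : j ≠ 0 := by rintro rfl; exact hk (by rw [← hj2, zero_nsmul])
    have c1 : j ≠ 1 := by rintro rfl; exact h1 (by rw [← hj2, one_nsmul])
    have c2 : j ≠ n := by rintro rfl; exact hk (by rw [← hj2, hG])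
    have c3 : j + 1 ≠ n := by
      rintro rfl
      apply h3
      rw [← hj2, neg_eq_iff_add_eq_zero, add_comm, ← succ_nsmul, hG]
    omega
  · intro j hj j' hj' hlt
    by_contra h
    apply hord (j' - j) (by omega) (by omega)
    have e1 : j • y = k := (mem_filter.mp hj).2
    have e2 : j' • y = k := (mem_filter.mp hj').2
    have e3 : j' • y = j • y + (j' - j) • y := by rw [← add_nsmul]; congr 1; omega
    rw [e1, e2] at e3
    exact (add_eq_left.mp e3.symm)

/-- The two-point vector with mass `t` at `k` and `1 - t` at `0`. -/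
noncomputable def twoPt (k : G) (t : ℝ) : G → ℝ :=
  fun x => (if x = k then t else 0) + if x = 0 then 1 - t else 0

theorem ofFun_twoPt (k : G) (t : ℝ) : ofFun (twoPt k t) = single k t + single 0 (1 - t) := by
  ext x
  simp only [ofFun, coeff_sum, Finsupp.finsetSum_apply, coeff_single, Finsupp.single_apply,
    sum_ite_eq, mem_univ, if_true, coeff_add, Finsupp.add_apply, twoPt, eq_comm]

theorem twoPt_mem (k : G) {t : ℝ} (h0 : 0 ≤ t) (h1 : t ≤ 1) : twoPt k t ∈ stdSimplex ℝ G := by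
  constructor
  · intro x
    unfold twoPt
    have : 0 ≤ 1 - t := by linarith
    split_ifs <;> linarith
  · simp [twoPt, sum_add_distrib]

theorem val_twoPt {n : ℕ} (hG : ∀ x : G, n • x = 0) {k : G} (hk : k ≠ 0) (t : ℝ) :
    val (twoPt k t) n k = resOne n (addOrderOf k) t := by
  rw [val, ofFun_twoPt, two_point_val hG, sub_zero, sum_self hk]

theorem exists_max {n : ℕ} (hn : 2 ≤ n) (hG : ∀ x : G, n • x = 0) {k : G} (hk : k ≠ 0) :
    ∃ t ∈ Set.Icc (0 : ℝ) 1, (∀ p ∈ stdSimplex ℝ G, val p n k ≤ resOne n (addOrderOf k) t) ∧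
      resOne n (addOrderOf k) t ≤ 1 / 2 := by
  obtain ⟨p, hp, hmax⟩ := (isCompact_stdSimplex ℝ G).exists_isMaxOn
    ⟨_, twoPt_mem k le_rfl zero_le_one⟩ (continuous_val n k).continuousOn
  have hd : 2 ≤ addOrderOf k := by
    have h2 : addOrderOf k ≠ 1 := by simpa using hk
    have h3 : 0 < addOrderOf k := addOrderOf_pos k
    omega
  have hn1 : (1 : ℝ) ≤ n := by exact_mod_cast (by omega : 1 ≤ n)
  have hlow : 25 / 68 ≤ val p n k := by
    refine (resOne_inv_ge n _ hn hd).trans ?_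
    rw [← val_twoPt hG hk]
    exact hmax (twoPt_mem k (by positivity) (by rw [div_le_one (by positivity)]; exact hn1))
  have hcard : ((univ.filter fun a => p a ≠ 0).card : ℝ) * val p n k ≤ 1 := by
    obtain ⟨m, rfl⟩ := Nat.exists_eq_add_of_le' (show 1 ≤ n by omega)
    exact card_support_mul_le hp m k hmax
  have hc2 : (univ.filter fun a => p a ≠ 0).card ≤ 2 := by
    by_contra h
    have : (3 : ℝ) ≤ (univ.filter fun a => p a ≠ 0).card := by exact_mod_cast not_le.mp h
    nlinarith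
  obtain ⟨a, b, t, h0, h1, hab, hone⟩ := exists_two_point hp hc2
  have hval : val p n k = ∑ j ∈ (range (n + 1)).filter (fun j => j • (b - a) = k), bw n t j := by
    rw [val, hab, two_point_val hG]
  have hhalf : val p n k ≤ 1 / 2 := by
    by_contra h
    have h2 : (univ.filter fun a => p a ≠ 0).card ≤ 1 := by
      by_contra h'
      have : (2 : ℝ) ≤ (univ.filter fun a => p a ≠ 0).card := by exact_mod_cast not_le.mp h'
      nlinarith
    rw [hone h2, sub_self, filter_false_of_mem (fun j _ => by simpa using hk.symm), sum_empty] at hval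
    linarith
  suffices h : ∃ t ∈ Set.Icc (0 : ℝ) 1, val p n k ≤ resOne n (addOrderOf k) t by
    obtain ⟨t, ht, h⟩ := h
    refine ⟨t, ht, fun q hq => (hmax hq).trans h, ?_⟩
    rw [← val_twoPt hG hk]
    exact le_trans (hmax (twoPt_mem k ht.1 ht.2)) hhalf
  by_cases hk2 : 2 • k = 0
  · refine ⟨1 / 2, ⟨by norm_num, by norm_num⟩, ?_⟩
    have : addOrderOf k = 2 :=
      le_antisymm (addOrderOf_le_of_nsmul_eq_zero (by norm_num) hk2) hd
    rw [this, resOne_two n (by omega)]
    exact hhalf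
  by_cases e1 : b - a = k
  · exact ⟨t, ⟨h0, h1⟩, by rw [hval, e1, sum_self hk]⟩
  by_cases e2 : b - a = -k
  · exact ⟨1 - t, ⟨by linarith, by linarith⟩, by rw [hval, e2, sum_neg hG hk]⟩
  have := sum_other (by omega) hG hk hk2 e1 e2 h0 h1
  linarith

/-- The distribution of a die with `m` faces. -/
noncomputable def dieVec {m : ℕ} (a : Fin m → G) : G → ℝ :=
  fun x => ∑ c, if a c = x then 1 / (m : ℝ) else 0

theorem dieVec_mem {m : ℕ} (hm : 1 ≤ m) (a : Fin m → G) : dieVec a ∈ stdSimplex ℝ G := by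
  constructor
  · intro x
    exact sum_nonneg fun c _ => by split_ifs <;> positivity
  · unfold dieVec
    rw [sum_comm]
    have : (m : ℝ) ≠ 0 := by exact_mod_cast (by omega : m ≠ 0)
    simp [this]

theorem ofFun_dieVec {m : ℕ} (a : Fin m → G) :
    ofFun (dieVec a) = ∑ c, single (a c) (1 / (m : ℝ)) := by
  ext x
  simp [ofFun, dieVec, Finsupp.single_apply]

theorem prod_single' {n : ℕ} (f : Fin n → G) (r : ℝ) (s : Finset (Fin n)) :
    ∏ i ∈ s, (single (f i) r : AddMonoidAlgebra ℝ G) = single (∑ i ∈ s, f i) (r ^ s.card) := by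
  induction s using Finset.induction_on with
  | empty => simp [one_def]
  | insert i s hi ih =>
    rw [prod_insert hi, sum_insert hi, ih, single_mul_single, card_insert_of_notMem hi, pow_succ']

theorem val_dieVec {m : ℕ} (a : Fin m → G) (n : ℕ) (k : G) :
    val (dieVec a) n k =
      ((univ.filter fun w : Fin n → Fin m => ∑ i, a (w i) = k).card : ℝ) / (m : ℝ) ^ n := by
  rw [val, ofFun_dieVec]
  have h := Finset.prod_univ_sum (fun _ : Fin n => (univ : Finset (Fin m)))
    (fun _ c => (single (a c) (1 / (m : ℝ)) : AddMonoidAlgebra ℝ G))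
  rw [prod_const, card_univ, Fintype.card_fin, Fintype.piFinset_univ] at h
  rw [h, coeff_sum, Finsupp.finsetSum_apply]
  simp only [prod_single', coeff_single, Finsupp.single_apply, card_univ, Fintype.card_fin]
  rw [← sum_filter, sum_const, nsmul_eq_mul, one_div, inv_pow, div_eq_mul_inv]

theorem dieVec_twoPt {m s : ℕ} (hm : 1 ≤ m) (hs : s ≤ m) (k : G) :
    ofFun (dieVec (fun c : Fin m => if (c : ℕ) < s then k else 0)) =
      ofFun (twoPt k ((s : ℝ) / m)) := by
  rw [ofFun_dieVec, ofFun_twoPt]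
  have hm' : (m : ℝ) ≠ 0 := by exact_mod_cast (by omega : m ≠ 0)
  rw [Fin.sum_univ_eq_sum_range (fun c => single (if c < s then k else 0) (1 / (m : ℝ))) m,
    ← sum_range_add_sum_Ico _ hs]
  congr 1
  · rw [sum_congr rfl (g := fun _ => single k (1 / (m : ℝ)))
      (fun c hc => by rw [if_pos (mem_range.mp hc)]), sum_const, card_range, smul_single,
      nsmul_eq_mul, mul_one_div]
  · rw [sum_congr rfl (g := fun _ => single 0 (1 / (m : ℝ)))
      (fun c hc => by rw [if_neg (not_lt.mpr (mem_Ico.mp hc).1)]), sum_const, Nat.card_Ico,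
      smul_single, nsmul_eq_mul, Nat.cast_sub hs]
    congr 1
    field_simp

theorem le_of_forall_rat {f : ℝ → ℝ} (hf : Continuous f) {u : ℝ}
    (h : ∀ m s : ℕ, 2 ≤ m → s ≤ m → f ((s : ℝ) / m) ≤ u) {t : ℝ} (h0 : 0 ≤ t) (h1 : t ≤ 1) :
    f t ≤ u := by
  have h2 : Filter.Tendsto (fun m : ℕ => ((⌊t * (m : ℝ)⌋₊ : ℕ) : ℝ) / (m : ℝ)) Filter.atTop
      (nhds t) := (tendsto_nat_floor_mul_div_atTop h0).comp tendsto_natCast_atTop_atTop
  apply le_of_tendsto ((hf.tendsto t).comp h2)
  filter_upwards [Filter.eventually_ge_atTop 2] with m hm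
  apply h m _ hm
  apply Nat.floor_le_of_le
  exact mul_le_of_le_one_left (Nat.cast_nonneg m) h1

end Pool.Agent.Lib.MP_f30851_co
end
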